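import Pool.Agent.H7.LD.Stmts

/-! # Row FNT of the board `ia`: the theorem -/

set_option autoImplicit false

open Finset

namespace Pool.LD7

open Pool.Agent.H23.KT Pool.Agent.H46.KW Pool.KQ Pool.GT7 Pool.GU7 Pool.HZ7 Pool.IA7

private lemma fnt_g8_sub {V : Type} [Fintype V] [DecidableEq V] {G : SimpleGraph V} {p r a : ℕ}
    (h : G8 G p r a) (S : Finset V) :
    G8 (G.comap (Subtype.val : {x : V // x ∉ S} → V)) p r a := by
  classical
  constructor
  · intro T _ hT
    have h1 := h.cb (T.map (Function.Embedding.subtype _)) (subset_univ _) (by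
      intro x hx y hy hxy
      rw [mem_coe, mem_map] at hx hy
      obtain ⟨x, hx, rfl⟩ := hx
      obtain ⟨y, hy, rfl⟩ := hy
      exact hT (mem_coe.2 hx) (mem_coe.2 hy) (fun h' => hxy (h' ▸ rfl)))
    rwa [card_map] at h1
  · intro v
    refine le_trans ?_ (h.deg v.1)
    rw [← card_map (Function.Embedding.subtype (fun x : V => x ∉ S))]
    refine card_le_card ?_
    intro y hy
    rw [mem_map] at hy
    obtain ⟨y, hy, rfl⟩ := hy
    rw [mem_nb] at hy ⊢
    exact ⟨mem_univ _, hy.2⟩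

private lemma fnt_kc_sub {V : Type} [Fintype V] [DecidableEq V] (G : SimpleGraph V)
    (S : Finset V) (j : ℕ) :
    kc (G.comap (Subtype.val : {x : V // x ∉ S} → V)) univ j = kc G (univ \ S) j := by
  classical
  rw [kc_map _ G (Function.Embedding.subtype (fun x : V => x ∉ S)) (fun x y => Iff.rfl)]
  congr 1
  ext y
  rw [mem_map, mem_sdiff]
  constructor
  · rintro ⟨x, _, rfl⟩
    exact ⟨mem_univ _, x.2⟩
  · rintro ⟨_, hy⟩
    exact ⟨⟨y, hy⟩, mem_univ _, rfl⟩

private lemma fnt_kc_empty {V : Type} [Fintype V] [IsEmpty V] (G : SimpleGraph V) (w : ℕ) :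
    kc G univ (w + 3) = 0 := by
  have h1 : (univ : Finset V).powersetCard (w + 3) = ∅ := by
    rw [powersetCard_eq_empty, card_univ, Fintype.card_eq_zero]
    omega
  unfold kc
  rw [h1]
  rfl

/-- A graph on the set `S` as a graph on `Fin (card S)`. -/
private lemma fnt_transport {V : Type} [Fintype V] [DecidableEq V] (G : SimpleGraph V)
    (S : Finset V) (p r a j : ℕ) (hd : ∀ u ∈ S, (nb G S u).card ≤ (p + 3) * a + r)
    (hc : CB G S (p + 4)) :
    ∃ G' : SimpleGraph (Fin S.card), G8 G' p r a ∧ kc G' univ j = kc G S j := by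
  classical
  let f : Fin S.card ↪ V := (S.equivFin.symm.toEmbedding).trans (Function.Embedding.subtype _)
  have hf : ∀ i, f i ∈ S := fun i => (S.equivFin.symm i).2
  have hu : (univ : Finset (Fin S.card)).map f = S := by
    ext y
    rw [mem_map]
    constructor
    · rintro ⟨x, _, rfl⟩
      exact hf x
    · intro hy
      refine ⟨S.equivFin ⟨y, hy⟩, mem_univ _, ?_⟩
      show ((S.equivFin.symm (S.equivFin ⟨y, hy⟩) : {x // x ∈ S}) : V) = y
      rw [Equiv.symm_apply_apply]
  refine ⟨G.comap f, ⟨?_, ?_⟩, ?_⟩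
  · intro T _ hT
    have h1 := hc (T.map f) (by
      intro y hy
      rw [mem_map] at hy
      obtain ⟨x, _, rfl⟩ := hy
      exact hf x) (by
      intro x hx y hy hxy
      rw [mem_coe, mem_map] at hx hy
      obtain ⟨x, hx, rfl⟩ := hx
      obtain ⟨y, hy, rfl⟩ := hy
      exact hT (mem_coe.2 hx) (mem_coe.2 hy) (fun h' => hxy (h' ▸ rfl)))
    rwa [card_map] at h1
  · intro v
    refine le_trans ?_ (hd (f v) (hf v))
    rw [← card_map f]
    refine card_le_card ?_
    intro y hy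
    rw [mem_map] at hy
    obtain ⟨y, hy, rfl⟩ := hy
    rw [mem_nb] at hy ⊢
    exact ⟨hf y, hy.2⟩
  · rw [kc_map _ G f (fun x y => Iff.rfl), hu]

/-- The bound for all graphs. -/
theorem fnt_upper (h1 : BKTStmt) (h2 : MNTStmt) (p w r : ℕ) (hp : PrT p w r) :
    ∃ a₀ : ℕ, ∀ a ≥ a₀, ∀ (kR nR : ℝ), 0 < nR →
      kt p w r a * nR ≤ kR * ((((p + 3) * a + r + a + 1 : ℕ)) : ℝ) →
      (∀ n : ℕ, 1 ≤ n → n ≤ (p + 5) * a → ∀ G : SimpleGraph (Fin n), G8 G p r a →
        (kc G univ (w + 3) : ℝ) * nR ≤ kR * n) →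
      ∀ (n : ℕ) (V : Type) [Fintype V] [DecidableEq V] (G : SimpleGraph V),
      Fintype.card V = n → G8 G p r a →
      (kc G univ (w + 3) : ℝ) * nR ≤ kR * Fintype.card V := by
  classical
  obtain ⟨C, hC, a₁, hB⟩ := h1 p w r hp
  obtain ⟨a₂, hM⟩ := h2 p w r hp C hC
  refine ⟨max a₁ a₂, ?_⟩
  intro a ha kR nR hnR hkt hmax n
  have ha1 : a₁ ≤ a := le_trans (le_max_left _ _) ha
  have ha2 : a₂ ≤ a := le_trans (le_max_right _ _) ha
  have hN : (0 : ℝ) < ((((p + 3) * a + r + a + 1 : ℕ)) : ℝ) := by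
    exact_mod_cast Nat.succ_pos _
  induction n using Nat.strong_induction_on with
  | _ n ih =>
    intro V _ _ G hn hG
    by_contra hlt
    push Not at hlt
    have hV : Nonempty V := by
      by_contra hne
      rw [not_nonempty_iff] at hne
      have h3 : kc G univ (w + 3) = 0 := fnt_kc_empty G w
      rw [h3, Fintype.card_eq_zero] at hlt
      simp at hlt
    have hcV : (0 : ℝ) ≤ Fintype.card V := Nat.cast_nonneg _
    have hden : kt p w r a * Fintype.card V ≤
        kc G univ (w + 3) * ((((p + 3) * a + r + a + 1 : ℕ)) : ℝ) := by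
      have e1 := mul_le_mul_of_nonneg_right hkt hcV
      have e2 := mul_le_mul_of_nonneg_right hlt.le hN.le
      have e3 : kt p w r a * Fintype.card V * nR ≤
          kc G univ (w + 3) * ((((p + 3) * a + r + a + 1 : ℕ)) : ℝ) * nR := by
        calc kt p w r a * Fintype.card V * nR = kt p w r a * nR * Fintype.card V := by ring
          _ ≤ kR * ((((p + 3) * a + r + a + 1 : ℕ)) : ℝ) * Fintype.card V := e1
          _ = kR * Fintype.card V * ((((p + 3) * a + r + a + 1 : ℕ)) : ℝ) := by ring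
          _ ≤ (kc G univ (w + 3) : ℝ) * nR * ((((p + 3) * a + r + a + 1 : ℕ)) : ℝ) := e2
          _ = _ := by ring
      exact le_of_mul_le_mul_right e3 hnR
    obtain ⟨Q, hQ⟩ := hB a ha1 G hG hV hden
    obtain ⟨hne, hcq, hm⟩ := hM a ha2 G Q hG hQ
    have hcard : Fintype.card {x : V // x ∉ un Q} + (un Q).card = Fintype.card V := by
      have h4 : Fintype.card {x : V // x ∉ un Q} = (univ \ un Q).card := by
        rw [Fintype.card_subtype]
        congr 1
        ext y
        simp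
      rw [h4, card_sdiff_add_card_eq_card (subset_univ _), card_univ]
    have hpos : 0 < (un Q).card := hne.card_pos
    have h5 := ih (Fintype.card {x : V // x ∉ un Q}) (by omega) {x : V // x ∉ un Q}
      (G.comap (Subtype.val : {x : V // x ∉ un Q} → V)) rfl (fnt_g8_sub hG (un Q))
    rw [fnt_kc_sub] at h5
    have h6 : (Fintype.card V : ℝ) = (Fintype.card {x : V // x ∉ un Q} : ℝ) + ((un Q).card : ℝ) := by
      exact_mod_cast hcard.symm
    have h7 : ((kc G univ (w + 3) : ℝ) - kc G (univ \ un Q) (w + 3)) * nR ≤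
        kR * (un Q).card := by
      rcases hm with hm | ⟨G', hd', hc', hk'⟩
      · have hcQ : (0 : ℝ) ≤ ((un Q).card : ℝ) := Nat.cast_nonneg _
        have e1 := mul_le_mul_of_nonneg_right hkt hcQ
        have e2 := mul_le_mul_of_nonneg_right hm hnR.le
        have e3 : ((kc G univ (w + 3) : ℝ) - kc G (univ \ un Q) (w + 3)) * nR *
            ((((p + 3) * a + r + a + 1 : ℕ)) : ℝ) ≤
            kR * (un Q).card * ((((p + 3) * a + r + a + 1 : ℕ)) : ℝ) := by
          calc ((kc G univ (w + 3) : ℝ) - kc G (univ \ un Q) (w + 3)) * nR *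
              ((((p + 3) * a + r + a + 1 : ℕ)) : ℝ) =
              ((kc G univ (w + 3) : ℝ) - kc G (univ \ un Q) (w + 3)) *
              ((((p + 3) * a + r + a + 1 : ℕ)) : ℝ) * nR := by ring
            _ ≤ kt p w r a * (un Q).card * nR := e2
            _ = kt p w r a * nR * (un Q).card := by ring
            _ ≤ kR * ((((p + 3) * a + r + a + 1 : ℕ)) : ℝ) * (un Q).card := e1
            _ = _ := by ring
        exact le_of_mul_le_mul_right e3 hN
      · obtain ⟨G'', hG'', hk''⟩ := fnt_transport G' (un Q) p r a (w + 3) hd' hc'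
        have e1 := hmax (un Q).card hpos hcq G'' hG''
        rw [hk''] at e1
        exact le_trans (mul_le_mul_of_nonneg_right hk' hnR.le) e1
    rw [h6] at hlt
    nlinarith [hlt, h7, h5]

theorem fnt_thm (h1 : BKTStmt) (h2 : MNTStmt) (h3 : RFTStmt) (h4 : NVTStmt) : FNTStmt := by
  classical
  intro p w r hp
  obtain ⟨a₁, hU⟩ := fnt_upper h1 h2 p w r hp
  obtain ⟨_, _, a₂, hV⟩ := h4 p w r hp
  refine ⟨max (max a₁ a₂) (p + 2), ?_⟩
  intro a ha
  have ha1 : a₁ ≤ a := le_trans (le_trans (le_max_left _ _) (le_max_left _ _)) ha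
  have ha2 : a₂ ≤ a := le_trans (le_trans (le_max_right _ _) (le_max_left _ _)) ha
  have ha3 : p + 2 ≤ a := le_trans (le_max_right _ _) ha
  have hrp := hp.rp
  -- graphs on `Fin m`
  have key : ∀ (m : ℕ) (H : SimpleGraph (Fin m)),
      ((∀ v, (H.neighborSet v).ncard ≤ (p + 3) * a + r) ∧ H.CliqueFree (p + 5)) ↔
        G8 H p r a := by
    intro m H
    have hnc : ∀ v, (H.neighborSet v).ncard = (nb H univ v).card := by
      intro v
      have h1 : ((nb H univ v : Finset (Fin m)) : Set (Fin m)) = H.neighborSet v := by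
        ext w
        rw [mem_coe, mem_nb, SimpleGraph.mem_neighborSet]
        simp
      rw [← Set.ncard_coe_finset, h1]
    constructor
    · rintro ⟨hdeg, hcf⟩
      refine ⟨?_, ?_⟩
      · intro S _ hS
        by_contra hlt
        push Not at hlt
        obtain ⟨S', hS', hc'⟩ := exists_subset_card_eq (show p + 5 ≤ S.card by omega)
        exact hcf S' ⟨hS.subset (by
          intro y hy
          exact mem_coe.2 (hS' (mem_coe.1 hy))), hc'⟩
      · intro v
        rw [← hnc]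
        exact hdeg v
    · rintro ⟨hcb, hdeg⟩
      refine ⟨?_, ?_⟩
      · intro v
        rw [hnc]
        exact hdeg v
      · intro S hS
        have := hcb S (subset_univ _) hS.isClique
        rw [hS.card_eq] at this
        omega
  -- the best graph
  obtain ⟨R₀, hR1, hR2, hR3⟩ := h3 p w r a hp (by omega)
  have hN1 : (p + 3) * a + r + a + 1 ≤ (p + 5) * a := by
    have : (p + 5) * a = (p + 3) * a + a + a := by ring
    omega
  let X : Type := Σ n : Fin ((p + 5) * a + 1), SimpleGraph (Fin n)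
  let T : Set X := {x | 1 ≤ (x.1 : ℕ) ∧ G8 x.2 p r a}
  have hfin : T.Finite := Set.toFinite T
  have hne : T.Nonempty := by
    refine ⟨⟨⟨(p + 3) * a + r + a + 1, by omega⟩, R₀⟩, ?_, ?_⟩
    · exact Nat.succ_pos _
    · exact (key _ R₀).1 ⟨hR1, hR2⟩
  obtain ⟨x, hxT, hx⟩ := Set.exists_max_image T
    (fun x : X => (kc x.2 univ (w + 3) : ℝ) / ((x.1 : ℕ) : ℝ)) hfin hne
  obtain ⟨⟨n, hn⟩, R⟩ := x
  obtain ⟨hn1, hRG⟩ := hxT
  have hn1' : 1 ≤ n := hn1
  have hn0 : (0 : ℝ) < (n : ℝ) := by exact_mod_cast hn1'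
  have hN0 : (0 : ℝ) < ((((p + 3) * a + r + a + 1 : ℕ)) : ℝ) := by
    exact_mod_cast Nat.succ_pos _
  have hmax : ∀ n' : ℕ, 1 ≤ n' → n' ≤ (p + 5) * a → ∀ G : SimpleGraph (Fin n'), G8 G p r a →
      (kc G univ (w + 3) : ℝ) * n ≤ kc R univ (w + 3) * n' := by
    intro n' h1' h2' G hG
    have hn'0 : (0 : ℝ) < (n' : ℝ) := by exact_mod_cast h1'
    have h := hx ⟨⟨n', by omega⟩, G⟩ ⟨h1', hG⟩
    have h' : (kc G univ (w + 3) : ℝ) / (n' : ℝ) ≤ (kc R univ (w + 3) : ℝ) / (n : ℝ) := h
    rw [div_le_div_iff₀ hn'0 hn0] at h'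
    exact h'
  have hkt : kt p w r a * n ≤
      (kc R univ (w + 3) : ℝ) * ((((p + 3) * a + r + a + 1 : ℕ)) : ℝ) := by
    have h := hmax _ (Nat.succ_pos _) hN1 R₀ ((key _ R₀).1 ⟨hR1, hR2⟩)
    rw [ncard_eq_kc] at hR3
    exact le_trans (mul_le_mul_of_nonneg_right hR3 hn0.le) h
  have hup := hU a ha1 (kc R univ (w + 3)) n hn0 hkt hmax
  obtain ⟨hR5, hR6⟩ := (key _ R).2 hRG
  refine ⟨n, R, hn1', by omega, hR5, hR6, ?_⟩
  intro m H hdeg hcf
  have h := hup m (Fin m) H (Fintype.card_fin m) ((key _ H).1 ⟨hdeg, hcf⟩)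
  rw [Fintype.card_fin] at h
  rw [ncard_eq_kc, ncard_eq_kc]
  exact_mod_cast h

end Pool.LD7
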